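import Mathlib

/-!
Reflective checker: families of arithmetic progressions whose start and length are linear
forms in a parameter `t ≥ 0` are pairwise incongruent modulo a linear form `G`.
-/

set_option autoImplicit false

namespace Pool.Agent.Lib.APCheck

/-- the linear form `a * t + b` -/
structure Lin where
  a : ℤ
  b : ℤ

namespace Lin

def ev (f : Lin) (t : ℤ) : ℤ := f.a * t + f.b
def add (f g : Lin) : Lin := ⟨f.a + g.a, f.b + g.b⟩
def sub (f g : Lin) : Lin := ⟨f.a - g.a, f.b - g.b⟩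
def smul (k : ℤ) (f : Lin) : Lin := ⟨k * f.a, k * f.b⟩
def pos (f : Lin) : Bool := decide (0 ≤ f.a) && decide (0 < f.b)
def nonneg (f : Lin) : Bool := decide (0 ≤ f.a) && decide (0 ≤ f.b)
/-- `f < g` for all `t ≥ 0` -/
def lt (f g : Lin) : Bool := decide (f.a ≤ g.a) && decide (f.b < g.b)

@[simp] theorem ev_add (f g : Lin) (t : ℤ) : (f.add g).ev t = f.ev t + g.ev t := by
  simp [ev, add]; ring
@[simp] theorem ev_sub (f g : Lin) (t : ℤ) : (f.sub g).ev t = f.ev t - g.ev t := by
  simp [ev, sub]; ring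
@[simp] theorem ev_smul (k : ℤ) (f : Lin) (t : ℤ) : (smul k f).ev t = k * f.ev t := by
  simp [ev, smul]; ring

theorem pos_sound {f : Lin} (h : f.pos = true) {t : ℤ} (ht : 0 ≤ t) : 0 < f.ev t := by
  simp only [pos, Bool.and_eq_true, decide_eq_true_eq] at h
  have := mul_nonneg h.1 ht
  simp only [ev]; omega

theorem nonneg_sound {f : Lin} (h : f.nonneg = true) {t : ℤ} (ht : 0 ≤ t) : 0 ≤ f.ev t := by
  simp only [nonneg, Bool.and_eq_true, decide_eq_true_eq] at h
  have := mul_nonneg h.1 ht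
  simp only [ev]; omega

theorem lt_sound {f g : Lin} (h : f.lt g = true) {t : ℤ} (ht : 0 ≤ t) : f.ev t < g.ev t := by
  simp only [lt, Bool.and_eq_true, decide_eq_true_eq] at h
  have := mul_le_mul_of_nonneg_right h.1 ht
  simp only [ev]; omega

end Lin

/-- the progression `s, s + p, ..., s + (n-1) p` -/
structure AP where
  s : Lin
  p : ℤ
  n : Lin

def AP.list (t : ℤ) (A : AP) : List ℤ :=
  (List.range (A.n.ev t).toNat).map (fun i : ℕ => A.s.ev t + (i : ℤ) * A.p)

def AP.last (A : AP) : Lin := A.s.add (Lin.smul A.p (A.n.sub ⟨0, 1⟩))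
def AP.lo (A : AP) : Lin := if 0 ≤ A.p then A.s else A.last
def AP.hi (A : AP) : Lin := if 0 ≤ A.p then A.last else A.s

theorem AP.mem_list {t : ℤ} {A : AP} {x : ℤ} (h : x ∈ A.list t) :
    ∃ i : ℤ, 0 ≤ i ∧ i < A.n.ev t ∧ x = A.s.ev t + i * A.p := by
  simp only [AP.list, List.mem_map, List.mem_range] at h
  obtain ⟨i, hi, rfl⟩ := h
  exact ⟨i, by positivity, by omega, rfl⟩

theorem AP.bounds {t : ℤ} {A : AP} {x : ℤ} (h : x ∈ A.list t) :
    A.lo.ev t ≤ x ∧ x ≤ A.hi.ev t := by
  obtain ⟨i, h0, h1, rfl⟩ := AP.mem_list h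
  have hl : A.last.ev t = A.s.ev t + A.p * (A.n.ev t - 1) := by
    simp [AP.last, Lin.ev]
    simp [Lin.add, Lin.smul, Lin.sub]; ring
  unfold AP.lo AP.hi
  split_ifs with hp
  · rw [hl]
    constructor
    · nlinarith
    · nlinarith
  · rw [hl]
    constructor
    · nlinarith
    · nlinarith

/-- progression with precomputed bounds -/
structure APB where
  s : Lin
  p : ℤ
  lo : Lin
  hi : Lin

def AP.toB (A : AP) : APB := ⟨A.s, A.p, A.lo, A.hi⟩

def phase (d : Lin) (h : ℤ) : Bool := decide (d.a % h = 0) && !decide (d.b % h = 0)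

def one (G lo hi d : Lin) (h : ℤ) (m : ℤ) : Bool :=
  (Lin.smul m G).lt lo || hi.lt (Lin.smul m G) || phase (d.sub (Lin.smul m G)) h

def disj (G : Lin) (A B : APB) : Bool :=
  let lo := A.lo.sub B.hi
  let hi := A.hi.sub B.lo
  let m0 := lo.b / G.b - 1
  let d := A.s.sub B.s
  let h : ℤ := Int.gcd A.p B.p
  (Lin.smul m0 G).lt lo && one G lo hi d h (m0 + 1) && one G lo hi d h (m0 + 2) &&
    (hi.lt (Lin.smul (m0 + 3) G) || (one G lo hi d h (m0 + 3) && hi.lt (Lin.smul (m0 + 4) G)))

theorem one_sound {G lo hi d : Lin} {h m t x : ℤ} (ht : 0 ≤ t) (hc : one G lo hi d h m = true)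
    (h1 : lo.ev t ≤ x) (h2 : x ≤ hi.ev t) (h3 : h ∣ x - d.ev t) : x ≠ G.ev t * m := by
  intro hx
  simp only [one, Bool.or_eq_true] at hc
  rcases hc with (hc | hc) | hc
  · have := Lin.lt_sound hc ht
    rw [Lin.ev_smul] at this
    linarith [mul_comm m (G.ev t)]
  · have := Lin.lt_sound hc ht
    rw [Lin.ev_smul] at this
    linarith [mul_comm m (G.ev t)]
  · simp only [phase, Bool.and_eq_true, decide_eq_true_eq, Bool.not_eq_true',
      decide_eq_false_iff_not] at hc
    obtain ⟨ha, hb⟩ := hc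
    apply hb
    have ha' : h ∣ (d.sub (Lin.smul m G)).a := Int.dvd_of_emod_eq_zero ha
    have e : (d.sub (Lin.smul m G)).b =
        -(x - d.ev t) - (d.sub (Lin.smul m G)).a * t := by
      rw [hx]; simp [Lin.ev, Lin.sub, Lin.smul]; ring
    apply Int.emod_eq_zero_of_dvd
    rw [e]
    exact dvd_sub ((dvd_neg).mpr h3) (Dvd.dvd.mul_right ha' t)

theorem disj_sound {G : Lin} {A B : AP} {t : ℤ} (ht : 0 ≤ t) (hG : 0 < G.ev t)
    (hc : disj G A.toB B.toB = true) :
    ∀ x ∈ A.list t, ∀ y ∈ B.list t, ¬ G.ev t ∣ x - y := by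
  intro x hx y hy ⟨m, hm⟩
  obtain ⟨hx1, hx2⟩ := AP.bounds hx
  obtain ⟨hy1, hy2⟩ := AP.bounds hy
  obtain ⟨i, -, -, hi⟩ := AP.mem_list hx
  obtain ⟨j, -, -, hj⟩ := AP.mem_list hy
  simp only [disj, AP.toB, Bool.and_eq_true, Bool.or_eq_true] at hc
  obtain ⟨⟨⟨c0, c1⟩, c2⟩, c3⟩ := hc
  set m0 := (A.lo.sub B.hi).b / G.b - 1 with hm0
  have h1 : (A.lo.sub B.hi).ev t ≤ x - y := by rw [Lin.ev_sub]; linarith
  have h2 : x - y ≤ (A.hi.sub B.lo).ev t := by rw [Lin.ev_sub]; linarith
  have h3 : ((Int.gcd A.p B.p : ℕ) : ℤ) ∣ (x - y) - (A.s.sub B.s).ev t := by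
    have e : (x - y) - (A.s.sub B.s).ev t = i * A.p - j * B.p := by
      rw [Lin.ev_sub, hi, hj]; ring
    rw [e]
    exact dvd_sub (Dvd.dvd.mul_left (Int.gcd_dvd_left _ _) i)
      (Dvd.dvd.mul_left (Int.gcd_dvd_right _ _) j)
  have b0 := Lin.lt_sound c0 ht
  rw [Lin.ev_smul] at b0
  have lower : m0 < m := by
    by_contra hcon
    push Not at hcon
    nlinarith
  have n1 := one_sound ht c1 h1 h2 h3
  have n2 := one_sound ht c2 h1 h2 h3
  rcases c3 with c3 | ⟨c3, c4⟩
  · have b1 := Lin.lt_sound c3 ht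
    rw [Lin.ev_smul] at b1
    have upper : m < m0 + 3 := by
      by_contra hcon
      push Not at hcon
      nlinarith
    have : m = m0 + 1 ∨ m = m0 + 2 := by omega
    rcases this with h | h
    · exact n1 (by rw [hm, h])
    · exact n2 (by rw [hm, h])
  · have b1 := Lin.lt_sound c4 ht
    rw [Lin.ev_smul] at b1
    have n3 := one_sound ht c3 h1 h2 h3
    have upper : m < m0 + 4 := by
      by_contra hcon
      push Not at hcon
      nlinarith
    have : m = m0 + 1 ∨ m = m0 + 2 ∨ m = m0 + 3 := by omega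
    rcases this with h | h | h
    · exact n1 (by rw [hm, h])
    · exact n2 (by rw [hm, h])
    · exact n3 (by rw [hm, h])

def selfOk (G : Lin) (A : AP) : Bool :=
  (A.hi.sub A.lo).lt G && (!decide (A.p = 0) || A.n.lt ⟨0, 2⟩)

/-- pairwise incongruent modulo `g` -/
def Inc (g : ℤ) (l : List ℤ) : Prop := l.Pairwise (fun a b => ¬ g ∣ a - b)

theorem selfOk_sound {G : Lin} {A : AP} {t : ℤ} (ht : 0 ≤ t) (hc : selfOk G A = true) :
    Inc (G.ev t) (A.list t) := by
  simp only [selfOk, Bool.and_eq_true, Bool.or_eq_true, Bool.not_eq_true',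
    decide_eq_false_iff_not] at hc
  obtain ⟨c1, c2⟩ := hc
  have b1 := Lin.lt_sound c1 ht
  rw [Lin.ev_sub] at b1
  unfold Inc
  have key : ∀ i j : ℕ, i < j → j < (A.n.ev t).toNat →
      ¬ G.ev t ∣ (A.s.ev t + (i : ℤ) * A.p) - (A.s.ev t + (j : ℤ) * A.p) := by
    intro i j hij hj ⟨m, hm⟩
    have hxi : A.s.ev t + (i : ℤ) * A.p ∈ A.list t := by
      simp only [AP.list, List.mem_map, List.mem_range]
      exact ⟨i, by omega, rfl⟩
    have hxj : A.s.ev t + (j : ℤ) * A.p ∈ A.list t := by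
      simp only [AP.list, List.mem_map, List.mem_range]
      exact ⟨j, by omega, rfl⟩
    obtain ⟨a1, a2⟩ := AP.bounds hxi
    obtain ⟨a3, a4⟩ := AP.bounds hxj
    have hG : 0 < G.ev t := by linarith
    have hm0 : m = 0 := by
      have u1 : m < 1 := by
        by_contra hcon
        push Not at hcon
        nlinarith
      have u2 : -1 < m := by
        by_contra hcon
        push Not at hcon
        nlinarith
      omega
    rcases c2 with c2 | c2
    · have e : ((i : ℤ) - j) * A.p = 0 := by rw [hm0] at hm; linarith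
      rcases mul_eq_zero.mp e with h | h
      · omega
      · exact c2 h
    · have b2 := Lin.lt_sound c2 ht
      simp only [Lin.ev] at b2 hj
      omega
  unfold AP.list
  rw [List.pairwise_map]
  refine List.Pairwise.imp_of_mem ?_ (List.pairwise_lt_range (n := (A.n.ev t).toNat))
  intro i j _ hj hij
  exact key i j hij (List.mem_range.mp hj)

def pairwiseB {α : Type} (r : α → α → Bool) : List α → Bool
  | [] => true
  | a :: l => l.all (r a) && pairwiseB r l

theorem pairwiseB_sound {α : Type} {r : α → α → Bool} :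
    ∀ {l : List α}, pairwiseB r l = true → l.Pairwise (fun a b => r a b = true)
  | [], _ => List.Pairwise.nil
  | a :: l, h => by
    simp only [pairwiseB, Bool.and_eq_true, List.all_eq_true] at h
    exact List.Pairwise.cons h.1 (pairwiseB_sound h.2)

def forceNat {β : Type} (n : ℕ) (k : ℕ → β) : β :=
  match n with
  | 0 => k 0
  | m + 1 => k (Nat.succ m)

theorem forceNat_eq {β : Type} (n : ℕ) (k : ℕ → β) : forceNat n k = k n := by
  cases n <;> rfl

def forceInt {β : Type} (z : ℤ) (k : ℤ → β) : β :=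
  match z with
  | Int.ofNat n => forceNat n (fun m => k (Int.ofNat m))
  | Int.negSucc n => forceNat n (fun m => k (Int.negSucc m))

theorem forceInt_eq {β : Type} (z : ℤ) (k : ℤ → β) : forceInt z k = k z := by
  cases z <;> simp [forceInt, forceNat_eq]

def forceLin {β : Type} (f : Lin) (k : Lin → β) : β :=
  forceInt f.a (fun a => forceInt f.b (fun b => k ⟨a, b⟩))

theorem forceLin_eq {β : Type} (f : Lin) (k : Lin → β) : forceLin f k = k f := by
  simp [forceLin, forceInt_eq]

/-- progression with its bounds reduced into the window `[0, G)` when that is possible -/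
structure APF where
  ins : Bool
  la : ℕ
  lb : ℕ
  ha : ℕ
  hb : ℕ
  B : APB

def AP.k (G : Lin) (A : AP) : ℤ := A.lo.b / G.b
def AP.lo' (G : Lin) (A : AP) : Lin := A.lo.sub (Lin.smul (A.k G) G)
def AP.hi' (G : Lin) (A : AP) : Lin := A.hi.sub (Lin.smul (A.k G) G)

def AP.toF (G : Lin) (A : AP) : APF :=
  ⟨(A.lo' G).nonneg && (A.hi' G).nonneg && (A.hi' G).lt G,
    (A.lo' G).a.toNat, (A.lo' G).b.toNat, (A.hi' G).a.toNat, (A.hi' G).b.toNat, A.toB⟩

def forceF {β : Type} (F : APF) (k : APF → β) : β :=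
  forceNat F.la fun la => forceNat F.lb fun lb => forceNat F.ha fun ha => forceNat F.hb fun hb =>
    forceLin F.B.s fun s => forceInt F.B.p fun p => forceLin F.B.lo fun lo =>
      forceLin F.B.hi fun hi =>
        match F.ins with
        | true => k ⟨true, la, lb, ha, hb, ⟨s, p, lo, hi⟩⟩
        | false => k ⟨false, la, lb, ha, hb, ⟨s, p, lo, hi⟩⟩

theorem forceF_eq {β : Type} (F : APF) (k : APF → β) : forceF F k = k F := by
  obtain ⟨ins, la, lb, ha, hb, B⟩ := F
  cases ins <;> simp [forceF, forceNat_eq, forceInt_eq, forceLin_eq]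

def forceL {β : Type} : List APF → (List APF → β) → β
  | [], k => k []
  | F :: l, k => forceF F (fun F' => forceL l (fun l' => k (F' :: l')))

theorem forceL_eq {β : Type} : ∀ (l : List APF) (k : List APF → β), forceL l k = k l
  | [], _ => rfl
  | F :: l, k => by simp [forceL, forceF_eq, forceL_eq l]

def sep (F H : APF) : Bool := Nat.ble F.ha H.la && Nat.ble (Nat.succ F.hb) H.lb

def disjF (G : Lin) (F H : APF) : Bool :=
  (F.ins && H.ins && (sep F H || sep H F)) || disj G F.B H.B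

theorem sep_sound {G : Lin} {A B : AP} {t : ℤ} (ht : 0 ≤ t)
    (hA : (A.toF G).ins = true) (hB : (B.toF G).ins = true)
    (hc : sep (A.toF G) (B.toF G) = true) :
    ∀ x ∈ A.list t, ∀ y ∈ B.list t, ¬ G.ev t ∣ x - y := by
  intro x hx y hy ⟨m, hm⟩
  obtain ⟨hx1, hx2⟩ := AP.bounds hx
  obtain ⟨hy1, hy2⟩ := AP.bounds hy
  simp only [AP.toF, Bool.and_eq_true] at hA hB
  obtain ⟨⟨a1, a2⟩, a3⟩ := hA
  obtain ⟨⟨b1, b2⟩, b3⟩ := hB
  have hlt : (A.hi' G).lt (B.lo' G) = true := by
    simp only [sep, AP.toF, Bool.and_eq_true, Nat.ble_eq] at hc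
    simp only [Lin.nonneg, Bool.and_eq_true, decide_eq_true_eq] at a2 b1
    simp only [Lin.lt, Bool.and_eq_true, decide_eq_true_eq]
    omega
  have c1 := Lin.nonneg_sound a1 ht
  have c2 := Lin.lt_sound b3 ht
  have c3 := Lin.lt_sound hlt ht
  simp only [AP.lo', AP.hi', Lin.ev_sub, Lin.ev_smul] at c1 c2 c3
  have e : (y - B.k G * G.ev t) - (x - A.k G * G.ev t) = G.ev t * (A.k G - B.k G - m) := by
    linear_combination -hm
  have p1 : 0 < G.ev t * (A.k G - B.k G - m) := by rw [← e]; linarith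
  have p2 : G.ev t * (A.k G - B.k G - m) < G.ev t := by rw [← e]; linarith
  have hG : 0 < G.ev t := by linarith
  have q1 : 0 < A.k G - B.k G - m := by
    by_contra hcon
    push Not at hcon
    nlinarith
  nlinarith

theorem disjF_sound {G : Lin} {A B : AP} {t : ℤ} (ht : 0 ≤ t) (hG : 0 < G.ev t)
    (hc : disjF G (A.toF G) (B.toF G) = true) :
    ∀ x ∈ A.list t, ∀ y ∈ B.list t, ¬ G.ev t ∣ x - y := by
  simp only [disjF, Bool.or_eq_true, Bool.and_eq_true] at hc
  rcases hc with ⟨⟨hA, hB⟩, h | h⟩ | h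
  · exact sep_sound ht hA hB h
  · intro x hx y hy hd
    exact sep_sound ht hB hA h y hy x hx (dvd_sub_comm.mp hd)
  · exact disj_sound ht hG h

def famOk (G : Lin) (L : List AP) : Bool :=
  G.pos && L.all (selfOk G) && forceL (L.map (AP.toF G)) (pairwiseB (disjF G))

theorem famOk_sound {G : Lin} {L : List AP} {t : ℤ} (ht : 0 ≤ t) (hc : famOk G L = true) :
    Inc (G.ev t) (L.flatMap (AP.list t)) := by
  simp only [famOk, Bool.and_eq_true, List.all_eq_true, forceL_eq] at hc
  obtain ⟨⟨c0, c1⟩, c2⟩ := hc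
  have hG := Lin.pos_sound c0 ht
  unfold Inc
  rw [List.pairwise_flatMap]
  refine ⟨fun A hA => selfOk_sound ht (c1 A hA), ?_⟩
  have := pairwiseB_sound c2
  rw [List.pairwise_map] at this
  exact this.imp (fun h => disjF_sound ht hG h)

/-- no repeated entry, checked with a bit mask -/
def nodupBits : List ℕ → ℕ → Bool
  | [], _ => true
  | x :: l, m => !(Nat.testBit m x) && forceNat (m ||| 2 ^ x) (nodupBits l)

theorem nodupBits_sound : ∀ (l : List ℕ) (m : ℕ), nodupBits l m = true →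
    l.Nodup ∧ ∀ x ∈ l, m.testBit x = false
  | [], _, _ => by simp
  | x :: l, m, h => by
    simp only [nodupBits, forceNat_eq, Bool.and_eq_true, Bool.not_eq_true'] at h
    obtain ⟨h1, h2⟩ := nodupBits_sound l _ h.2
    simp only [Nat.testBit_or, Bool.or_eq_false_iff] at h2
    refine ⟨List.nodup_cons.mpr ⟨fun hx => ?_, h1⟩, ?_⟩
    · have := (h2 x hx).2
      simp at this
    · intro y hy
      rcases List.mem_cons.mp hy with rfl | hy
      · exact h.1
      · exact (h2 y hy).1

/-- direct check for a concrete list -/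
def incB (g : ℤ) (l : List ℤ) : Bool :=
  nodupBits (l.map (fun x => (x % g).toNat)) 0

theorem incB_sound {g : ℤ} {l : List ℤ} (hc : incB g l = true) : Inc g l := by
  have := (nodupBits_sound _ _ hc).1
  unfold List.Nodup at this
  rw [List.pairwise_map] at this
  refine this.imp ?_
  intro a b h hd
  have e : a % g = b % g :=
    Int.emod_eq_emod_iff_emod_sub_eq_zero.mpr (Int.emod_eq_zero_of_dvd hd)
  rw [e] at h
  simp at h

theorem Inc.nodup {g : ℕ} {l : List ℤ} (h : Inc (g : ℤ) l) :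
    (l.map (Int.cast : ℤ → ZMod g)).Nodup := by
  unfold List.Nodup
  rw [List.pairwise_map]
  refine List.Pairwise.imp ?_ h
  intro a b hab e
  apply hab
  have := (ZMod.intCast_eq_intCast_iff_dvd_sub b a g).mp e.symm
  exact this

end Pool.Agent.Lib.APCheck
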